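import Pool.Agent.L5helper98.CQ.Main

/-!
MP_b09bc5_pr, Q1: asymptotics of the clique chromatic number of `G(n,p)` for
`n^(-1/3+ε) ≪ p ≪ n^(-ε)`.
-/

set_option autoImplicit false

namespace Pool.Agent.Results.MP_b09bc5_pr.LeadingConstant

open Filter Topology Pool.Agent.L5helper98.CQ

/-- Let `ε > 0` and `n^(-1/3+ε) ≪ p ≪ n^(-ε)`. With
`f(n,p) = (log(np) - inf_{r ≥ 2} [(r/2) log(1/p) + n p^r/(r-1)]) / p` (`cliqueValue`), whp the clique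
chromatic number of `G(n,p)` is `(1+o(1)) f(n,p)`. The leading constant (the limit of `f p / log n`) is
`1 - x (1 + ⌈1/x⌉/2)` when `p = n^(-x+o(1))` and `1/x` is not an integer, and
`1/2 - 1/r - min (a/(r-1)) (1/(2r))` when `p = n^(-1/r+o(1))` and `n p^r / log n → a`. -/
theorem result (ε : ℝ) (hε : 0 < ε) (p : ℕ → ℝ)
    (h1 : Tendsto (fun n : ℕ => p n / (n : ℝ) ^ (-(1 / 3) + ε : ℝ)) atTop atTop)
    (h2 : Tendsto (fun n : ℕ => p n / (n : ℝ) ^ (-ε : ℝ)) atTop (𝓝 0)) :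
    (∀ δ : ℝ, 0 < δ → Tendsto (fun n : ℕ => gnp n (p n) (fun G =>
      (1 - δ) * cliqueValue n (p n) ≤ (cliqueChromaticNumber G : ℝ) ∧
        (cliqueChromaticNumber G : ℝ) ≤ (1 + δ) * cliqueValue n (p n))) atTop (𝓝 1)) ∧
    (∀ x : ℝ, (∀ m : ℕ, x * m ≠ 1) →
      Tendsto (fun n : ℕ => Real.log (1 / p n) / Real.log n) atTop (𝓝 x) →
      Tendsto (fun n : ℕ => cliqueValue n (p n) * p n / Real.log n) atTop
        (𝓝 (1 - x * (1 + (⌈1 / x⌉₊ : ℝ) / 2)))) ∧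
    (∀ (r : ℕ) (a : ℝ), 2 ≤ r → 0 ≤ a →
      Tendsto (fun n : ℕ => Real.log (1 / p n) / Real.log n) atTop (𝓝 (1 / r)) →
      Tendsto (fun n : ℕ => (n : ℝ) * p n ^ r / Real.log n) atTop (𝓝 a) →
      Tendsto (fun n : ℕ => cliqueValue n (p n) * p n / Real.log n) atTop
        (𝓝 (1 / 2 - 1 / r - min (a / ((r : ℝ) - 1)) (1 / (2 * r))))) :=
  main ε hε p h1 h2

end Pool.Agent.Results.MP_b09bc5_pr.LeadingConstant
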